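import Pool.Agent.H84.LSB.TargetsHL
import Pool.Agent.H39.G.LO

/-!
# Row HRE of hlm_modules: refined decoupling for the part of frequency about `1/w` of a sum of
bumps, at separated points, exponent four
-/

set_option autoImplicit false

namespace Pool.Agent.H20.LSB

open MeasureTheory Set
open Pool.Agent.H83.G
open Pool.Agent.H88.B2
open Pool.Agent.H84.LSB
open Pool.Agent.H39.G (TC_sum TF_sum)
open scoped ENNReal NNReal RealInnerProductSpace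

/-! ### packing and sampling -/

theorem haarY : (volume : Measure (E 2 × ℝ)).IsAddHaarMeasure :=
  Measure.prod.instIsAddHaarMeasure (volume : Measure (E 2)) (volume : Measure ℝ)

theorem haarZ : (volume : Measure (Z 2)).IsAddHaarMeasure := by
  have := haarY
  exact Measure.prod.instIsAddHaarMeasure (volume : Measure ℝ) (volume : Measure (E 2 × ℝ))

theorem pack (Y : Finset (Z 2)) (z : Z 2) (r : ℝ) (hY : Sep Y) (hr : 1 ≤ r)
    (hYr : ∀ x ∈ Y, ‖x - z‖ ≤ r) : (Y.card : ℝ) ≤ 256 * r ^ 4 := by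
  obtain ⟨μ, hμ⟩ : ∃ μ : Measure (Z 2), μ.IsAddHaarMeasure :=
    ⟨volume, haarZ⟩
  have hμ0 : 0 < μ (Metric.ball (0 : Z 2) 1) := Metric.measure_ball_pos _ _ one_pos
  have hμt : μ (Metric.ball (0 : Z 2) 1) ≠ ⊤ := measure_ball_lt_top.ne
  have hfr : Module.finrank ℝ (Z 2) = 4 := by
    rw [Module.finrank_prod, Module.finrank_prod, finrank_euclideanSpace_fin,
      Module.finrank_self]
  have hball : ∀ (x : Z 2) (ρ : ℝ), 0 < ρ → μ (Metric.ball x ρ) =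
      ENNReal.ofReal (ρ ^ 4) * μ (Metric.ball (0 : Z 2) 1) := by
    intro x ρ hρ
    rw [Measure.addHaar_ball_of_pos μ x hρ, hfr]
  have hdisj : Set.PairwiseDisjoint (Y : Set (Z 2)) fun x => Metric.ball x (1 / 2) := by
    intro x hx y hy hxy
    refine Metric.ball_disjoint_ball ?_
    have := hY x hx y hy hxy
    rw [← dist_eq_norm] at this
    linarith
  have hsub : (⋃ x ∈ Y, Metric.ball x (1 / 2)) ⊆ Metric.ball z (r + 1) := by
    intro y hy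
    obtain ⟨x, hx, hxy⟩ := mem_iUnion₂.1 hy
    rw [Metric.mem_ball] at hxy ⊢
    have h1 := hYr x hx
    rw [← dist_eq_norm] at h1
    calc dist y z ≤ dist y x + dist x z := dist_triangle _ _ _
      _ < r + 1 := by linarith
  have h1 : ∑ x ∈ Y, μ (Metric.ball x (1 / 2)) ≤ μ (Metric.ball z (r + 1)) := by
    rw [← measure_biUnion_finset hdisj fun x _ => measurableSet_ball]
    exact measure_mono hsub
  rw [Finset.sum_congr rfl fun x _ => hball x (1 / 2) (by norm_num), hball z (r + 1) (by linarith),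
    Finset.sum_const, nsmul_eq_mul, ← mul_assoc] at h1
  have h2 := (ENNReal.mul_le_mul_iff_left hμ0.ne' hμt).1 h1
  have h3 : (Y.card : ℝ) * (1 / 2) ^ 4 ≤ (r + 1) ^ 4 := by
    have h4 : ENNReal.ofReal ((Y.card : ℝ) * (1 / 2) ^ 4) ≤
        ENNReal.ofReal ((r + 1) ^ 4) := by
      rw [ENNReal.ofReal_mul (by positivity), ENNReal.ofReal_natCast]
      exact h2
    exact (ENNReal.ofReal_le_ofReal_iff (by positivity)).1 h4
  have h4 : (r + 1) ^ 4 ≤ (2 * r) ^ 4 := pow_le_pow_left₀ (by linarith) (by linarith) 4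
  have h5 : (2 * r) ^ 4 = 16 * r ^ 4 := by ring
  linarith

theorem maxsep (w : ℝ) (X : Finset (Z 2)) : ∃ Y ⊆ X,
    (∀ y ∈ Y, ∀ y' ∈ Y, y ≠ y' → w < ‖y - y'‖) ∧ ∀ x ∈ X, ∃ y ∈ Y, ‖x - y‖ ≤ w ∨ x = y := by
  classical
  induction X using Finset.induction_on with
  | empty => exact ⟨∅, Finset.Subset.refl _, by simp, by simp⟩
  | insert a X ha ih =>
    obtain ⟨Y, hYX, hY, hcov⟩ := ih
    by_cases h : ∃ y ∈ Y, ‖a - y‖ ≤ w
    · obtain ⟨y, hy, hay⟩ := h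
      refine ⟨Y, hYX.trans (Finset.subset_insert _ _), hY, ?_⟩
      intro x hx
      rcases Finset.mem_insert.1 hx with rfl | hx
      · exact ⟨y, hy, Or.inl hay⟩
      · exact hcov x hx
    · push Not at h
      refine ⟨insert a Y, Finset.insert_subset_insert _ hYX, ?_, ?_⟩
      · intro y hy y' hy' hne
        rcases Finset.mem_insert.1 hy with h1 | h1
        · rcases Finset.mem_insert.1 hy' with h2 | h2
          · exact (hne (h1.trans h2.symm)).elim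
          · rw [h1]
            exact h y' h2
        · rcases Finset.mem_insert.1 hy' with h2 | h2
          · rw [h2, norm_sub_rev]
            exact h y h1
          · exact hY y h1 y' h2 hne
      · intro x hx
        rcases Finset.mem_insert.1 hx with rfl | hx
        · exact ⟨x, Finset.mem_insert_self _ _, Or.inr rfl⟩
        · obtain ⟨y, hy, hxy⟩ := hcov x hx
          exact ⟨y, Finset.mem_insert_of_mem hy, hxy⟩

theorem sampling (w : ℝ) (X : Finset (Z 2)) (hw : 1 ≤ w) (hX : Sep X) : ∃ Y ⊆ X,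
    (∀ y ∈ Y, ∀ y' ∈ Y, y ≠ y' → w < ‖y - y'‖) ∧ (X.card : ℝ) ≤ 256 * w ^ 4 * Y.card := by
  classical
  obtain ⟨Y, hYX, hY, hcov⟩ := maxsep w X
  refine ⟨Y, hYX, hY, ?_⟩
  have h1 : X ⊆ Y.biUnion fun y => X.filter fun x => ‖x - y‖ ≤ w := by
    intro x hx
    obtain ⟨y, hy, hxy⟩ := hcov x hx
    rw [Finset.mem_biUnion]
    refine ⟨y, hy, Finset.mem_filter.2 ⟨hx, ?_⟩⟩
    rcases hxy with hxy | hxy
    · exact hxy
    · rw [hxy, sub_self, norm_zero]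
      linarith
  have h2 := (Finset.card_le_card h1).trans Finset.card_biUnion_le
  have h3 : (X.card : ℝ) ≤ ∑ y ∈ Y, ((X.filter fun x => ‖x - y‖ ≤ w).card : ℝ) := by
    exact_mod_cast h2
  refine h3.trans ?_
  have h4 : ∀ y ∈ Y, ((X.filter fun x => ‖x - y‖ ≤ w).card : ℝ) ≤ 256 * w ^ 4 := by
    intro y _
    apply pack _ y w _ hw
    · intro x hx
      exact (Finset.mem_filter.1 hx).2
    · intro x hx x' hx' hne
      exact hX x (Finset.mem_filter.1 hx).1 x' (Finset.mem_filter.1 hx').1 hne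
  refine (Finset.sum_le_sum h4).trans (le_of_eq ?_)
  rw [Finset.sum_const, nsmul_eq_mul]
  ring

/-! ### the final algebra -/

theorem alg {n k h w R δ P M' M T A B CK : ℝ} (hδ : 0 < δ) (hδ1 : δ ≤ 1 / 100) (hP : P = 4 - δ)
    (hk : 0 ≤ k) (hh : 0 < h) (hw : 1 ≤ w) (hR : 1 ≤ R) (hM' : 0 < M') (hT : 0 ≤ T) (hA : 0 ≤ A)
    (hB : 1 ≤ B) (hCK : 1 ≤ CK) (ha : n ≤ 256 * w ^ 4 * k)
    (hb : k * (h ^ P * (w * M') ^ (1 - P / 2)) ≤ A * (R ^ (20 * δ) * w ^ (P / 2 - 3) * T * R ^ 2))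
    (hc : h ≤ B * R ^ δ * M') (hd : M' ≤ M) (he : M' ≤ CK * R) :
    n * h ^ 4 ≤ 256 * A * B * CK * (R ^ (22 * δ) * M * w ^ 4 * T * R ^ 2) := by
  have hw0 : 0 < w := by linarith
  have hR0 : 0 < R := by linarith
  have hB0 : 0 < B := by linarith
  have hCK0 : 0 < CK := by linarith
  have hM0 : 0 < M := lt_of_lt_of_le hM' hd
  have hwM : 0 < w * M' := by positivity
  have e1 : h ^ 4 = h ^ P * h ^ δ := by
    rw [← Real.rpow_add hh, hP, ← Real.rpow_natCast]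
    congr 1
    push_cast
    ring
  have e2 : (w * M') ^ (1 - P / 2) * (w * M') ^ (P / 2 - 1) = 1 := by
    rw [← Real.rpow_add hwM]
    have : 1 - P / 2 + (P / 2 - 1) = 0 := by ring
    rw [this, Real.rpow_zero]
  have hpos1 : 0 < (w * M') ^ (P / 2 - 1) := Real.rpow_pos_of_pos hwM _
  have hhP : 0 < h ^ P := Real.rpow_pos_of_pos hh _
  have hhd : 0 < h ^ δ := Real.rpow_pos_of_pos hh _
  have s1 : k * h ^ P ≤ A * (R ^ (20 * δ) * w ^ (P / 2 - 3) * T * R ^ 2) * (w * M') ^ (P / 2 - 1) := by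
    have h1 := mul_le_mul_of_nonneg_right hb hpos1.le
    have h2 : k * (h ^ P * (w * M') ^ (1 - P / 2)) * (w * M') ^ (P / 2 - 1) = k * h ^ P := by
      calc k * (h ^ P * (w * M') ^ (1 - P / 2)) * (w * M') ^ (P / 2 - 1)
          = k * h ^ P * ((w * M') ^ (1 - P / 2) * (w * M') ^ (P / 2 - 1)) := by ring
        _ = k * h ^ P := by rw [e2, mul_one]
    rw [h2] at h1
    exact h1
  have e3 : w ^ 4 * (w ^ (P / 2 - 3) * (w * M') ^ (P / 2 - 1)) = w ^ P * M' ^ (P / 2 - 1) := by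
    rw [Real.mul_rpow hw0.le hM'.le]
    have h1 : w ^ 4 * (w ^ (P / 2 - 3) * w ^ (P / 2 - 1)) = w ^ P := by
      rw [← Real.rpow_natCast w 4, ← Real.rpow_add hw0, ← Real.rpow_add hw0]
      congr 1
      push_cast
      ring
    calc w ^ 4 * (w ^ (P / 2 - 3) * (w ^ (P / 2 - 1) * M' ^ (P / 2 - 1)))
        = w ^ 4 * (w ^ (P / 2 - 3) * w ^ (P / 2 - 1)) * M' ^ (P / 2 - 1) := by ring
      _ = w ^ P * M' ^ (P / 2 - 1) := by rw [h1]
  have s2 : n * h ^ P ≤ 256 * A * (R ^ (20 * δ) * T * R ^ 2 * (w ^ P * M' ^ (P / 2 - 1))) := by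
    calc n * h ^ P ≤ 256 * w ^ 4 * k * h ^ P := mul_le_mul_of_nonneg_right ha hhP.le
      _ = 256 * w ^ 4 * (k * h ^ P) := by ring
      _ ≤ 256 * w ^ 4 * (A * (R ^ (20 * δ) * w ^ (P / 2 - 3) * T * R ^ 2) *
          (w * M') ^ (P / 2 - 1)) := mul_le_mul_of_nonneg_left s1 (by positivity)
      _ = 256 * A * (R ^ (20 * δ) * T * R ^ 2 *
          (w ^ 4 * (w ^ (P / 2 - 3) * (w * M') ^ (P / 2 - 1)))) := by ring
      _ = _ := by rw [e3]
  have s3 : h ^ δ ≤ B * R ^ δ * M' ^ δ := by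
    have h1 : h ^ δ ≤ (B * R ^ δ * M') ^ δ := Real.rpow_le_rpow hh.le hc hδ.le
    rw [Real.mul_rpow (by positivity) hM'.le, Real.mul_rpow hB0.le (by positivity)] at h1
    have h2 : B ^ δ ≤ B := by
      calc B ^ δ ≤ B ^ (1 : ℝ) := Real.rpow_le_rpow_of_exponent_le hB (by linarith)
        _ = B := Real.rpow_one B
    have hRd : 1 ≤ R ^ δ := Real.one_le_rpow hR hδ.le
    have h3 : (R ^ δ) ^ δ ≤ R ^ δ := by
      calc (R ^ δ) ^ δ ≤ (R ^ δ) ^ (1 : ℝ) := Real.rpow_le_rpow_of_exponent_le hRd (by linarith)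
        _ = R ^ δ := Real.rpow_one _
    refine h1.trans (mul_le_mul_of_nonneg_right ?_ (by positivity))
    exact mul_le_mul h2 h3 (by positivity) hB0.le
  have s4 : M' ^ (P / 2 - 1) * M' ^ δ ≤ M * (CK * R ^ δ) := by
    rw [← Real.rpow_add hM']
    have h1 : P / 2 - 1 + δ = 1 + δ / 2 := by rw [hP]; ring
    rw [h1, Real.rpow_add hM', Real.rpow_one]
    have h2 : M' ^ (δ / 2) ≤ (CK * R) ^ (δ / 2) := Real.rpow_le_rpow hM'.le he (by linarith)
    rw [Real.mul_rpow hCK0.le hR0.le] at h2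
    have h3 : CK ^ (δ / 2) ≤ CK := by
      calc CK ^ (δ / 2) ≤ CK ^ (1 : ℝ) := Real.rpow_le_rpow_of_exponent_le hCK (by linarith)
        _ = CK := Real.rpow_one CK
    have h4 : R ^ (δ / 2) ≤ R ^ δ := Real.rpow_le_rpow_of_exponent_le hR (by linarith)
    have h5 : CK ^ (δ / 2) * R ^ (δ / 2) ≤ CK * R ^ δ := mul_le_mul h3 h4 (by positivity) hCK0.le
    exact mul_le_mul hd (h2.trans h5) (by positivity) hM0.le
  have s5 : w ^ P ≤ w ^ 4 := by
    rw [← Real.rpow_natCast w 4]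
    exact Real.rpow_le_rpow_of_exponent_le hw (by rw [hP]; push_cast; linarith)
  have e4 : R ^ (20 * δ) * R ^ δ * R ^ δ = R ^ (22 * δ) := by
    rw [← Real.rpow_add hR0, ← Real.rpow_add hR0]
    congr 1
    ring
  calc n * h ^ 4 = (n * h ^ P) * h ^ δ := by rw [e1]; ring
    _ ≤ (256 * A * (R ^ (20 * δ) * T * R ^ 2 * (w ^ P * M' ^ (P / 2 - 1)))) *
        (B * R ^ δ * M' ^ δ) := mul_le_mul s2 s3 hhd.le (by positivity)
    _ = 256 * A * B * (R ^ (20 * δ) * R ^ δ * T * R ^ 2) * (w ^ P *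
        (M' ^ (P / 2 - 1) * M' ^ δ)) := by ring
    _ ≤ 256 * A * B * (R ^ (20 * δ) * R ^ δ * T * R ^ 2) * (w ^ 4 * (M * (CK * R ^ δ))) := by
        apply mul_le_mul_of_nonneg_left _ (by positivity)
        exact mul_le_mul s5 s4 (by positivity) (by positivity)
    _ = 256 * A * B * CK * ((R ^ (20 * δ) * R ^ δ * R ^ δ) * M * w ^ 4 * T * R ^ 2) := by ring
    _ = _ := by rw [e4]

/-! ### the weight -/

theorem wsv {a b q s : ℝ} (ha : 0 < a) (hb : 0 < b) (hq : 1 ≤ q) (hs : s ≤ 0) (hs1 : -1 ≤ s)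
    (h : b ≤ q * a) : ENNReal.ofReal a ^ s ≤ ENNReal.ofReal q * ENNReal.ofReal b ^ s := by
  have hq0 : 0 < q := by linarith
  rw [ENNReal.ofReal_rpow_of_pos ha, ENNReal.ofReal_rpow_of_pos hb,
    ← ENNReal.ofReal_mul hq0.le]
  apply ENNReal.ofReal_le_ofReal
  have h1 : b / q ≤ a := by
    rw [div_le_iff₀ hq0]
    linarith
  have h2 : a ^ s ≤ (b / q) ^ s := Real.rpow_le_rpow_of_nonpos (by positivity) h1 hs
  have h3 : (b / q) ^ s = q ^ (-s) * b ^ s := by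
    rw [Real.div_rpow hb.le hq0.le, Real.rpow_neg hq0.le]
    field_simp
  have h4 : q ^ (-s) ≤ q := by
    calc q ^ (-s) ≤ q ^ (1 : ℝ) := Real.rpow_le_rpow_of_exponent_le hq (by linarith)
      _ = q := Real.rpow_one q
  rw [h3] at h2
  exact h2.trans (mul_le_mul_of_nonneg_right h4 (by positivity))

theorem sum_Sb (w : ℝ) (S : Finset (Pk 2)) (I : Finset (Fin 2 → ℤ))
    (hI : ∀ W ∈ S, kb w W.1 ∈ I) (f : Pk 2 → ℂ) :
    ∑ j ∈ I, ∑ W ∈ Sb w S j, f W = ∑ W ∈ S, f W := by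
  classical
  rw [← Finset.sum_fiberwise_of_maps_to hI f]
  apply Finset.sum_congr rfl
  intro j _
  apply Finset.sum_congr _ (fun _ _ => rfl)
  ext W
  simp only [Sb, Finset.mem_filter]

theorem Nd_pos {N : ℕ} {R δ w : ℝ} {S : Finset (Pk 2)} (hOWA : T_OWA) (hR : 1 ≤ R) (hδ : 0 ≤ δ)
    (hS : S.Nonempty) (z : Z 2) : 0 < Nd N R δ w S z :=
  Finset.sum_pos (fun W _ => ((hOWA 2 N R δ W hR hδ).2.1 w z).1) hS

theorem Nd_cont {N : ℕ} {R δ w : ℝ} {S : Finset (Pk 2)} (hOWA : T_OWA) (hR : 1 ≤ R) (hδ : 0 ≤ δ)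
    (hw : 0 < w) : Continuous (Nd N R δ w S) := by
  unfold Nd
  exact continuous_finset_sum _ fun W _ => (hOWA 2 N R δ W hR hδ).1 w hw

theorem Nd_mono {N : ℕ} {R δ w w' : ℝ} {S : Finset (Pk 2)} (hOWA : T_OWA) (hR : 1 ≤ R)
    (hδ : 0 ≤ δ) (hw : 0 < w) (h : w ≤ w') (z : Z 2) : Nd N R δ w S z ≤ Nd N R δ w' S z :=
  Finset.sum_le_sum fun W _ => (hOWA 2 N R δ W hR hδ).2.2.1 w w' z hw h

/-- the pointwise bound -/
theorem hbound {N : ℕ} {R δ w C₀ CP M' : ℝ} {φ : ℝ → ℝ} {S : Finset (Pk 2)}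
    {G : Pk 2 → Z 2 → ℂ} {z : Z 2} (hOWA : T_OWA) (hR : 1 ≤ R) (hδ : 0 ≤ δ) (hw : 1 ≤ w)
    (hCP : 0 ≤ CP) (hC₀ : 0 ≤ C₀)
    (hP : ∀ W ∈ S, ‖TF (mu1 φ w (G W)) z‖ ≤ CP * C₀ * (R ^ δ / w) * ww N R δ w W z)
    (hz : Nd N R δ (w * R ^ δ) S z ≤ w * M') :
    ‖∑ W ∈ S, TF (mu1 φ w (G W)) z‖ ≤ CP * C₀ * R ^ δ * M' := by
  have hw0 : 0 < w := by linarith
  have hR0 : 0 < R := by linarith
  have hRd : 1 ≤ R ^ δ := Real.one_le_rpow hR hδ
  calc ‖∑ W ∈ S, TF (mu1 φ w (G W)) z‖ ≤ ∑ W ∈ S, ‖TF (mu1 φ w (G W)) z‖ := norm_sum_le _ _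
    _ ≤ ∑ W ∈ S, CP * C₀ * (R ^ δ / w) * ww N R δ w W z := Finset.sum_le_sum hP
    _ = CP * C₀ * (R ^ δ / w) * Nd N R δ w S z := by rw [← Finset.mul_sum]; rfl
    _ ≤ CP * C₀ * (R ^ δ / w) * (w * M') := by
        apply mul_le_mul_of_nonneg_left _ (by positivity)
        refine (Nd_mono hOWA hR hδ hw0 ?_ z).trans hz
        exact le_mul_of_one_le_right hw0.le hRd
    _ = CP * C₀ * R ^ δ * M' := by
        field_simp

/-- the estimate at the points of the sample -/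
theorem atY {N : ℕ} {R δ w P h M' CI D CW : ℝ} {CS : ℝ≥0} {φ : ℝ → ℝ} {S : Finset (Pk 2)}
    {G : Pk 2 → Z 2 → ℂ} {G' : Z 2 → ℂ} {Y : Finset (Z 2)} (hOWA : T_OWA) (hR : 1 ≤ R)
    (hδ : 0 ≤ δ) (hw : 1 ≤ w) (hS : S.Nonempty) (hP2 : 2 ≤ P) (hP4 : P ≤ 4) (hCW : 1 ≤ CW)
    (hCI : 0 ≤ CI) (hh : 0 < h) (hM' : 0 < M')
    (hSPW : ∀ (G : Z 2 → ℂ) (X : Finset (Z 2)) (ω : Z 2 → ℝ≥0∞), TC G →
      (∀ ζ, G ζ ≠ 0 → ‖ζ‖ ≤ D) → Sep X → Measurable ω →
      (∀ z z', ω z ≤ ENNReal.ofReal (CW * (1 + ‖z - z'‖) ^ (2 * N)) * ω z') →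
      ∑ z ∈ X, ‖TF G z‖ₑ ^ P * ω z ≤ CS * ∫⁻ z, ‖TF G z‖ₑ ^ P * ω z)
    (hG'1 : TC G') (hG'2 : ∀ ζ, G' ζ ≠ 0 → ‖ζ‖ ≤ D)
    (hG'3 : ∀ z, TF G' z = ∑ W ∈ S, TF (mu1 φ w (G W)) (w • z))
    (hW : ∀ W ∈ S, ∀ z z' : Z 2, ww N R δ (w * R ^ δ) W z ≤
      CW * (1 + ‖w⁻¹ • (z - z')‖) ^ (2 * N) * ww N R δ (w * R ^ δ) W z')
    (hI : ∫⁻ z : Z 2, ‖∑ W ∈ S, TF (mu1 φ w (G W)) (w • z)‖ₑ ^ P *
      ENNReal.ofReal (Nd N R δ (w * R ^ δ) S (w • z)) ^ (1 - P / 2) ≤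
      ENNReal.ofReal (CI * R ^ (20 * δ) * w ^ (P / 2 - 3) * S.card * R ^ 2))
    (hY : ∀ y ∈ Y, ∀ y' ∈ Y, y ≠ y' → w < ‖y - y'‖)
    (hYh : ∀ y ∈ Y, h ≤ ‖∑ W ∈ S, TF (mu1 φ w (G W)) y‖)
    (hYM : ∀ y ∈ Y, Nd N R δ (w * R ^ δ) S y ≤ w * M') :
    (Y.card : ℝ) * (h ^ P * (w * M') ^ (1 - P / 2)) ≤
      (CS * CI) * (R ^ (20 * δ) * w ^ (P / 2 - 3) * S.card * R ^ 2) := by
  classical
  have hw0 : 0 < w := by linarith
  have hR0 : 0 < R := by linarith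
  have hwR : 0 < w * R ^ δ := by positivity
  have hNp : ∀ z, 0 < Nd N R δ (w * R ^ δ) S z := fun z => Nd_pos hOWA hR hδ hS z
  set ω : Z 2 → ℝ≥0∞ := fun z => ENNReal.ofReal (Nd N R δ (w * R ^ δ) S (w • z)) ^ (1 - P / 2)
    with hω
  have hωm : Measurable ω := by
    have h1 : Continuous fun z : Z 2 => Nd N R δ (w * R ^ δ) S (w • z) :=
      (Nd_cont hOWA hR hδ hwR).comp (continuous_const_smul w)
    exact (ENNReal.measurable_ofReal.comp h1.measurable).pow_const _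
  have hNs : ∀ z z' : Z 2, Nd N R δ (w * R ^ δ) S z ≤
      CW * (1 + ‖w⁻¹ • (z - z')‖) ^ (2 * N) * Nd N R δ (w * R ^ δ) S z' := by
    intro z z'
    unfold Nd
    rw [Finset.mul_sum]
    exact Finset.sum_le_sum fun W hW' => hW W hW' z z'
  have hωs : ∀ z z', ω z ≤ ENNReal.ofReal (CW * (1 + ‖z - z'‖) ^ (2 * N)) * ω z' := by
    intro z z'
    have h1 := hNs (w • z') (w • z)
    have h2 : w⁻¹ • (w • z' - w • z) = z' - z := by
      rw [← smul_sub, smul_smul, inv_mul_cancel₀ hw0.ne', one_smul]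
    rw [h2, norm_sub_rev] at h1
    have h3 : 1 ≤ CW * (1 + ‖z - z'‖) ^ (2 * N) := by
      have h4 : 1 ≤ (1 + ‖z - z'‖) ^ (2 * N) :=
        one_le_pow₀ (by have := norm_nonneg (z - z'); linarith)
      calc (1 : ℝ) = 1 * 1 := by ring
        _ ≤ CW * (1 + ‖z - z'‖) ^ (2 * N) := mul_le_mul hCW h4 (by norm_num) (by linarith)
    exact wsv (hNp _) (hNp _) h3 (by linarith) (by linarith) h1
  set Y' : Finset (Z 2) := Y.image fun y => w⁻¹ • y with hY'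
  have hinj : Function.Injective fun y : Z 2 => w⁻¹ • y := by
    intro y y' hyy
    have h1 : w • (w⁻¹ • y) = w • (w⁻¹ • y') := by
      simp only at hyy
      rw [hyy]
    rw [smul_smul, smul_smul, mul_inv_cancel₀ hw0.ne', one_smul, one_smul] at h1
    exact h1
  have hSepY : Sep Y' := by
    intro a ha b hb hne
    obtain ⟨y, hy, rfl⟩ := Finset.mem_image.1 ha
    obtain ⟨y', hy', rfl⟩ := Finset.mem_image.1 hb
    have hne' : y ≠ y' := fun h => hne (by rw [h])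
    have h1 := hY y hy y' hy' hne'
    rw [← smul_sub, norm_smul, norm_inv, Real.norm_eq_abs, abs_of_pos hw0, ← div_eq_inv_mul,
      le_div_iff₀ hw0]
    linarith
  have key := hSPW G' Y' ω hG'1 hG'2 hSepY hωm hωs
  have hint : ∫⁻ z, ‖TF G' z‖ₑ ^ P * ω z ≤
      ENNReal.ofReal (CI * R ^ (20 * δ) * w ^ (P / 2 - 3) * S.card * R ^ 2) := by
    refine le_trans (le_of_eq ?_) hI
    apply lintegral_congr
    intro z
    rw [hG'3 z]
  have hlow : (Y.card : ℝ≥0∞) * ENNReal.ofReal (h ^ P * (w * M') ^ (1 - P / 2)) ≤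
      ∑ z ∈ Y', ‖TF G' z‖ₑ ^ P * ω z := by
    rw [hY', Finset.sum_image (fun a _ b _ hab => hinj hab), ← nsmul_eq_mul,
      ← Finset.sum_const]
    apply Finset.sum_le_sum
    intro y hy
    have h1 : w • (w⁻¹ • y) = y := by
      rw [smul_smul, mul_inv_cancel₀ hw0.ne', one_smul]
    have h2 : ENNReal.ofReal (h ^ P) ≤ ‖TF G' (w⁻¹ • y)‖ₑ ^ P := by
      rw [← ENNReal.ofReal_rpow_of_pos hh]
      apply ENNReal.rpow_le_rpow _ (by linarith)
      rw [hG'3, h1, ← ofReal_norm]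
      exact ENNReal.ofReal_le_ofReal (hYh y hy)
    have h3 : ENNReal.ofReal ((w * M') ^ (1 - P / 2)) ≤ ω (w⁻¹ • y) := by
      simp only [hω]
      rw [h1, ENNReal.ofReal_rpow_of_pos (hNp y)]
      apply ENNReal.ofReal_le_ofReal
      exact Real.rpow_le_rpow_of_nonpos (hNp y) (hYM y hy) (by linarith)
    rw [ENNReal.ofReal_mul (by positivity)]
    exact mul_le_mul' h2 h3
  have hfin : (Y.card : ℝ≥0∞) * ENNReal.ofReal (h ^ P * (w * M') ^ (1 - P / 2)) ≤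
      CS * ENNReal.ofReal (CI * R ^ (20 * δ) * w ^ (P / 2 - 3) * S.card * R ^ 2) :=
    hlow.trans (key.trans (mul_le_mul_right hint _))
  have h5 : ENNReal.ofReal ((Y.card : ℝ) * (h ^ P * (w * M') ^ (1 - P / 2))) ≤
      ENNReal.ofReal ((CS * CI) * (R ^ (20 * δ) * w ^ (P / 2 - 3) * S.card * R ^ 2)) := by
    rw [ENNReal.ofReal_mul (by positivity), ENNReal.ofReal_natCast]
    refine hfin.trans (le_of_eq ?_)
    have e1 : ((CS : ℝ) * CI) * (R ^ (20 * δ) * w ^ (P / 2 - 3) * S.card * R ^ 2) =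
        (CS : ℝ) * (CI * R ^ (20 * δ) * w ^ (P / 2 - 3) * S.card * R ^ 2) := by ring
    rw [e1, ENNReal.ofReal_mul (NNReal.coe_nonneg CS), ENNReal.ofReal_coe_nnreal]
  exact (ENNReal.ofReal_le_ofReal_iff (by positivity)).1 h5

theorem pf_HRE (hHRI : T_HRI) (hHRG : T_HRG) (hMKB : T_MKB) (hHPT : T_HPT) (hOWA : T_OWA)
    (hOWS : T_OWS) (_hKBL : T_KBL) (hSPW : T_SPW) : T_HRE := by
  classical
  intro N δ C₀ φ hN hδ hδ1 hC₀ hφ hsupp
  obtain ⟨D, hD, hG⟩ := hHRG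
  obtain ⟨CK, hCK, hK⟩ := hMKB N hN
  obtain ⟨CP, hCP, hP⟩ := hHPT 2 N φ (by omega) hφ (fun x hx => by
    have h1 := hsupp x hx
    rw [abs_le]
    constructor <;> linarith [h1.1, h1.2])
  obtain ⟨CW, hCW, hW⟩ := hOWS 2 N 3 (by norm_num)
  obtain ⟨CS, hS⟩ := hSPW 2 (2 * N) D (4 - δ) CW (by linarith) (by linarith)
  obtain ⟨CI, hCI, hI⟩ := hHRI N δ C₀ (4 - δ) φ hN hδ hδ1 hC₀ (by linarith) (by linarith) hφ hsupp
  have hA : 0 ≤ (CS : ℝ) * CI := by positivity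
  have hB : 1 ≤ CP * C₀ := by
    calc (1 : ℝ) = 1 * 1 := by ring
      _ ≤ CP * C₀ := mul_le_mul hCP hC₀ (by norm_num) (by linarith)
  have hCbig : 0 ≤ 256 * ((CS : ℝ) * CI) * (CP * C₀) * CK := by positivity
  refine ⟨256 * ((CS : ℝ) * CI) * (CP * C₀) * CK + 1, by linarith, ?_⟩
  intro R w h M S G X hR hw hw2 hh hM hHB hX hXh
  have hR0 : 0 < R := by linarith
  have hRd : 1 ≤ R ^ δ := Real.one_le_rpow hR hδ.le
  have hw1 : 1 ≤ w := hRd.trans hw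
  have hw0 : 0 < w := by linarith
  rcases X.eq_empty_or_nonempty with hX0 | ⟨z₀, hz₀⟩
  · subst hX0
    rw [Finset.card_empty, Nat.cast_zero, zero_mul]
    positivity
  have hSne : S.Nonempty := by
    rw [Finset.nonempty_iff_ne_empty]
    intro h0
    have h1 := (hXh z₀ hz₀).1
    rw [h0, Finset.sum_empty, norm_zero] at h1
    linarith
  set M' : ℝ := min M (CK * R) with hM'def
  have hM' : 0 < M' := lt_min hM (by positivity)
  have hNdM : ∀ z ∈ X, Nd N R δ (w * R ^ δ) S z ≤ w * M' := by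
    intro z hz
    have h1 := (hXh z hz).2
    have h2 := (hK R δ w S z hR hδ.le hw1).2.2 (fun W hW => (hHB W hW).1)
    rcases le_total M (CK * R) with h3 | h3
    · rw [hM'def, min_eq_left h3]
      exact h1
    · rw [hM'def, min_eq_right h3]
      linarith
  have hwsq : w ≤ Real.sqrt R := Real.le_sqrt_of_sq_le hw2
  obtain ⟨Y, hYX, hYsep, hYcard⟩ := sampling w X hw1 hX
  -- the function
  have hex : ∀ j : Fin 2 → ℤ, ∃ G' : Z 2 → ℂ, TC G' ∧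
      (∀ z, TF G' z = ∑ W ∈ Sb w S j, TF (mu1 φ w (G W)) (w • z)) ∧
      ∀ ζ, G' ζ ≠ 0 → ‖ζ‖ ≤ D := by
    intro j
    obtain ⟨G', h1, h2, h3⟩ := hG N R δ w C₀ φ S G j hR hδ.le hw1 hw2 hφ hsupp hHB
    exact ⟨G', h1, h2, fun ζ hζ => (h3 ζ hζ).2.2.1⟩
  choose Gj hGj1 hGj2 hGj3 using hex
  set I : Finset (Fin 2 → ℤ) := S.image fun W => kb w W.1 with hIdef
  have hTC : TC (fun ζ => ∑ j ∈ I, Gj j ζ) := TC_sum I Gj fun j _ => hGj1 j
  have hsup : ∀ ζ, (fun ζ => ∑ j ∈ I, Gj j ζ) ζ ≠ 0 → ‖ζ‖ ≤ D := by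
    intro ζ hζ
    obtain ⟨j, _, hj⟩ := Finset.exists_ne_zero_of_sum_ne_zero hζ
    exact hGj3 j ζ hj
  have hTF : ∀ z, TF (fun ζ => ∑ j ∈ I, Gj j ζ) z = ∑ W ∈ S, TF (mu1 φ w (G W)) (w • z) := by
    intro z
    rw [TF_sum I Gj (fun j _ => hGj1 j) z, ← sum_Sb w S I (fun W hW =>
      Finset.mem_image_of_mem _ hW) (fun W => TF (mu1 φ w (G W)) (w • z))]
    exact Finset.sum_congr rfl fun j _ => hGj2 j z
  have hb := atY (N := N) (P := 4 - δ) (CI := CI) (CS := CS) (D := D) (CW := CW) (φ := φ) (G := G)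
    (Y := Y) hOWA hR hδ.le hw1 hSne (by linarith) (by linarith) hCW (by linarith) hh hM' hS hTC hsup
    hTF (fun W hW' z z' => (hW R δ w W z z' hR hδ.le hw1 hwsq (hHB W hW').2.1).1 (w * R ^ δ)
      (le_mul_of_one_le_right hw0.le hRd))
    (hI R w S G hR hw hw2 hSne hHB) hYsep (fun y hy => (hXh y (hYX hy)).1)
    (fun y hy => hNdM y (hYX hy))
  have hc : h ≤ CP * C₀ * R ^ δ * M' := by
    refine (hXh z₀ hz₀).1.trans ?_
    apply hbound hOWA hR hδ.le hw1 (by linarith) (by linarith) _ (hNdM z₀ hz₀)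
    intro W hW'
    exact hP R δ w C₀ W (G W) hR hδ.le hw (by linarith) (hHB W hW').2.2.1 (hHB W hW').2.2.2.1 z₀
  have hfin := alg (n := (X.card : ℝ)) (k := (Y.card : ℝ)) (T := (S.card : ℝ)) hδ hδ1 rfl
    (by positivity) hh hw1 hR hM' (by positivity) hA hB hCK hYcard hb hc (min_le_left _ _)
    (min_le_right _ _)
  have e1 : R ^ (22 * δ) ≤ R ^ (lo 2 * δ) := by
    apply Real.rpow_le_rpow_of_exponent_le hR
    have : lo 2 = 400 := by
      unfold lo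
      norm_num
    rw [this]
    linarith
  refine hfin.trans ?_
  have hT0 : 0 ≤ M * w ^ 4 * S.card * R ^ 2 := by positivity
  calc 256 * ((CS : ℝ) * CI) * (CP * C₀) * CK * (R ^ (22 * δ) * M * w ^ 4 * S.card * R ^ 2)
      = 256 * ((CS : ℝ) * CI) * (CP * C₀) * CK * (R ^ (22 * δ) * (M * w ^ 4 * S.card * R ^ 2)) := by
        ring
    _ ≤ (256 * ((CS : ℝ) * CI) * (CP * C₀) * CK + 1) *
        (R ^ (lo 2 * δ) * (M * w ^ 4 * S.card * R ^ 2)) := by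
        apply mul_le_mul (by linarith) (mul_le_mul_of_nonneg_right e1 hT0) (by positivity)
          (by positivity)
    _ = _ := by ring

end Pool.Agent.H20.LSB
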