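import Pool.Agent.H20.LSB.HRE
import Pool.Agent.H63.G.CPS

/-!
# Row MRP of hlm_modules: four-linear restriction in a ball of radius `R` for wave packets
-/

set_option autoImplicit false

namespace Pool.Agent.H20.LSB

open MeasureTheory Set
open Pool.Agent.H83.G
open Pool.Agent.H88.B2
open Pool.Agent.H84.LSB
open Pool.Agent.H39.G (TC_sum TF_sum)
open Pool.Agent.H22.G4 (nv Ind)
open scoped ENNReal NNReal RealInnerProductSpace

/-- sampling at distance `r` in a ball of radius `C₁ r` -/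
theorem cover (r C₁ : ℝ) (z₀ : Z 2) (X : Finset (Z 2)) (hr : 0 < r) (hC₁ : 1 ≤ C₁)
    (hX : ∀ z ∈ X, ‖z - z₀‖ ≤ C₁ * r) : ∃ Y : Finset (Z 2), (Y.card : ℝ) ≤ 256 * C₁ ^ 4 ∧
    ∀ x ∈ X, ∃ y ∈ Y, ‖x - y‖ ≤ r := by
  classical
  obtain ⟨Y, hYX, hY, hcov⟩ := maxsep r X
  refine ⟨Y, ?_, ?_⟩
  · have hinj : Function.Injective fun y : Z 2 => r⁻¹ • y := by
      intro y y' hyy
      have h1 : r • (r⁻¹ • y) = r • (r⁻¹ • y') := by
        simp only at hyy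
        rw [hyy]
      rw [smul_smul, smul_smul, mul_inv_cancel₀ hr.ne', one_smul, one_smul] at h1
      exact h1
    have h1 := pack (Y.image fun y => r⁻¹ • y) (r⁻¹ • z₀) C₁ (by
      intro a ha b hb hne
      obtain ⟨y, hy, rfl⟩ := Finset.mem_image.1 ha
      obtain ⟨y', hy', rfl⟩ := Finset.mem_image.1 hb
      have hne' : y ≠ y' := fun h => hne (by rw [h])
      have h1 := hY y hy y' hy' hne'
      rw [← smul_sub, norm_smul, norm_inv, Real.norm_eq_abs, abs_of_pos hr, ← div_eq_inv_mul,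
        le_div_iff₀ hr]
      linarith) hC₁ (by
      intro a ha
      obtain ⟨y, hy, rfl⟩ := Finset.mem_image.1 ha
      rw [← smul_sub, norm_smul, norm_inv, Real.norm_eq_abs, abs_of_pos hr, ← div_eq_inv_mul,
        div_le_iff₀ hr]
      exact hX y (hYX hy))
    rw [Finset.card_image_of_injective _ hinj] at h1
    exact h1
  · intro x hx
    obtain ⟨y, hy, hxy⟩ := hcov x hx
    refine ⟨y, hy, ?_⟩
    rcases hxy with hxy | hxy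
    · exact hxy
    · rw [hxy, sub_self, norm_zero]
      exact hr.le

theorem card_cover (X Y : Finset (Z 2)) (r B : ℝ) (hB : 0 ≤ B)
    (hcov : ∀ x ∈ X, ∃ y ∈ Y, ‖x - y‖ ≤ r)
    (h : ∀ y ∈ Y, ∀ X' ⊆ X, (∀ z ∈ X', ‖z - y‖ ≤ r) → (X'.card : ℝ) ≤ B) :
    (X.card : ℝ) ≤ Y.card * B := by
  classical
  have h1 : X ⊆ Y.biUnion fun y => X.filter fun x => ‖x - y‖ ≤ r := by
    intro x hx
    obtain ⟨y, hy, hxy⟩ := hcov x hx
    rw [Finset.mem_biUnion]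
    exact ⟨y, hy, Finset.mem_filter.2 ⟨hx, hxy⟩⟩
  have h2 := (Finset.card_le_card h1).trans Finset.card_biUnion_le
  have h3 : (X.card : ℝ) ≤ ∑ y ∈ Y, ((X.filter fun x => ‖x - y‖ ≤ r).card : ℝ) := by
    exact_mod_cast h2
  refine h3.trans ?_
  refine (Finset.sum_le_sum fun y hy => h y hy _ (Finset.filter_subset _ _) (fun z hz =>
    (Finset.mem_filter.1 hz).2)).trans (le_of_eq ?_)
  rw [Finset.sum_const, nsmul_eq_mul]

theorem wt_le_one {m : ℕ} (N : ℕ) (z : Z m) : wt N z ≤ 1 := by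
  unfold wt
  apply inv_le_one_of_one_le₀
  exact one_le_pow₀ (by have := norm_nonneg z; linarith)

/-- the amplitudes are finite -/
theorem al2_ne_top {N : ℕ} {β : E 2 → ℂ} {κ R δ : ℝ} {G : Z 2 → ℂ} (hβ : IsPU β) (hPLN : T_PLN)
    (hR : 1 ≤ R) (hκ : κ ≤ 3 / 8) (hG : TC G) (hs : ∀ ζ, G ζ ≠ 0 → ζ ∈ Rg 2 κ R⁻¹) (W : Pk 2) :
    al2 N β R δ G W ≠ ⊤ := by
  unfold al2
  have hsR : 0 < sR R := by
    unfold sR
    have : 0 < Real.sqrt R := Real.sqrt_pos.2 (by linarith)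
    positivity
  have h1 : ∫⁻ z, ‖TP β (ctr (sR R) W.1) (sR R) G z‖ₑ ^ 2 *
      ENNReal.ofReal (wt N (fc R δ W.1 z - zc W.2)) ≤
      ∫⁻ z, ‖TP β (ctr (sR R) W.1) (sR R) G z‖ₑ ^ 2 := by
    apply lintegral_mono
    intro z
    calc ‖TP β (ctr (sR R) W.1) (sR R) G z‖ₑ ^ 2 *
        ENNReal.ofReal (wt N (fc R δ W.1 z - zc W.2)) ≤
        ‖TP β (ctr (sR R) W.1) (sR R) G z‖ₑ ^ 2 * 1 := by
          apply mul_le_mul_right
          rw [← ENNReal.ofReal_one]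
          exact ENNReal.ofReal_le_ofReal (wt_le_one N _)
      _ = _ := mul_one _
  have hTC : TC (fun ζ => cp β (ctr (sR R) W.1) (sR R) ζ * G ζ) := by
    apply Pool.Agent.H63.G.pf_CPS 2 β _ _ G hβ.1 hsR hG
    intro ζ hζ
    have := (hs ζ hζ).1
    linarith
  have h2 : ∫⁻ z, ‖TP β (ctr (sR R) W.1) (sR R) G z‖ₑ ^ 2 ≠ ⊤ := by
    have h3 := (hPLN 2 _ hTC).1
    have h4 : ∫⁻ z, ‖TP β (ctr (sR R) W.1) (sR R) G z‖ₑ ^ 2 =
        ∫⁻ z, ‖TF (fun ζ => cp β (ctr (sR R) W.1) (sR R) ζ * G ζ) z‖ₑ ^ 2 := rfl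
    rw [h4, h3]
    exact ENNReal.ofReal_ne_top
  exact ENNReal.mul_ne_top ENNReal.ofReal_ne_top (ne_top_of_le_ne_top h2 h1)

theorem al2_le {N : ℕ} {β : E 2 → ℂ} {R δ a : ℝ} {G : Z 2 → ℂ} {W : Pk 2}
    (ht : al2 N β R δ G W ≠ ⊤) (h : al N β R δ G W ≤ a) :
    al2 N β R δ G W ≤ ENNReal.ofReal (a ^ 2) := by
  unfold al at h
  rw [← ENNReal.ofReal_toReal ht]
  apply ENNReal.ofReal_le_ofReal
  have h1 : 0 ≤ Real.sqrt (al2 N β R δ G W).toReal := Real.sqrt_nonneg _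
  have h2 : (al2 N β R δ G W).toReal = Real.sqrt (al2 N β R δ G W).toReal ^ 2 :=
    (Real.sq_sqrt ENNReal.toReal_nonneg).symm
  rw [h2]
  exact pow_le_pow_left₀ h1 h 2

/-- the function of one family in a ball of radius `r` -/
theorem oneFam {β : E 2 → ℂ} {ψ χ : Z 2 → ℝ} {Na : ℕ} {κ R δ a r K CP CB : ℝ} {G : Z 2 → ℂ}
    {S : Finset (Pk 2)} {c : E 2} {z₁ : Z 2} (hβ : IsPU β) (hPLN : T_PLN)
    (hHG : HG β Na κ R δ a G S) (hCB : 1 ≤ CB) (hK : 1 ≤ K)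
    (hr0 : 0 < r) (hRd : 8 * CP ≤ R ^ δ) (hKR : 800 * K ≤ Real.sqrt R)
    (hPK : ∃ G' : (Fin 2 → ℤ) → Z 2 → ℂ, (∀ k, TC (G' k)) ∧
      (∀ k ζ, G' k ζ ≠ 0 → ζ ∈ Rg 2 (κ + CP * R ^ (-δ)) r⁻¹ ∧
        ‖ζ.1⁻¹ • ζ.2.1 - ctr (sR R) k‖ ≤ 2 * sR R) ∧
      ∀ k z, TF (G' k) z = (χ (r⁻¹ • (z - z₁)) : ℂ) *
        ∑ W ∈ S.filter (fun W => W.1 = k), Fp β ψ R δ G W z)
    (hBE : ∫⁻ z, ‖(χ (r⁻¹ • (z - z₁)) : ℂ) * ∑ W ∈ S, Fp β ψ R δ G W z‖ₑ ^ 2 ≤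
      ENNReal.ofReal (CB * R ^ (lo 2 * δ) * (r / R)) *
        ∑ W ∈ S, al2 Na β R δ G W * ENNReal.ofReal (R ^ (((2 : ℕ) + 2 : ℝ) / 2)))
    (hSc : ∀ W ∈ S, ‖ctr (sR R) W.1 - c‖ ≤ 1 / (400 * K)) :
    ∃ G₁ : Z 2 → ℂ, TC G₁ ∧
      (∀ ζ, G₁ ζ ≠ 0 → 1 / 2 ≤ ζ.1 ∧ ζ.1 ≤ 6 ∧ ‖ζ.1⁻¹ • ζ.2.1 - c‖ ≤ 1 / (200 * K) ∧
        |ζ.2.2 - ‖ζ.2.1‖ ^ 2 / ζ.1| ≤ 2 / r) ∧
      (∀ z, TF G₁ z = (χ (r⁻¹ • (z - z₁)) : ℂ) * FS β ψ R δ G S z) ∧
      ∫ ζ, ‖G₁ ζ‖ ^ 2 ≤ CB * R ^ (lo 2 * δ) * r * (a ^ 2 * S.card * R) := by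
  classical
  obtain ⟨G', hG1, hG2, hG3⟩ := hPK
  obtain ⟨hκ0, hκ, hR, hGTC, hGs, ha, hSW⟩ := hHG
  have hR0 : 0 < R := by linarith
  set I : Finset (Fin 2 → ℤ) := S.image fun W => W.1 with hI
  have hTC : TC (fun ζ => ∑ k ∈ I, G' k ζ) := TC_sum I G' fun k _ => hG1 k
  have hTF : ∀ z, TF (fun ζ => ∑ k ∈ I, G' k ζ) z =
      (χ (r⁻¹ • (z - z₁)) : ℂ) * FS β ψ R δ G S z := by
    intro z
    rw [TF_sum I G' (fun k _ => hG1 k) z]
    unfold FS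
    rw [← Finset.sum_fiberwise_of_maps_to (fun W hW => Finset.mem_image_of_mem _ hW :
      ∀ W ∈ S, W.1 ∈ I) (fun W => Fp β ψ R δ G W z), Finset.mul_sum]
    apply Finset.sum_congr rfl
    intro k _
    rw [hG3]
  refine ⟨fun ζ => ∑ k ∈ I, G' k ζ, hTC, ?_, hTF, ?_⟩
  · intro ζ hζ
    obtain ⟨k, hk, hkz⟩ := Finset.exists_ne_zero_of_sum_ne_zero hζ
    obtain ⟨hRg, hcap⟩ := hG2 k ζ hkz
    obtain ⟨W, hW, rfl⟩ := Finset.mem_image.1 hk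
    obtain ⟨h1, h2, h3, h4⟩ := hRg
    have hκ' : κ + CP * R ^ (-δ) ≤ 1 / 2 := by
      have h5 : CP * R ^ (-δ) ≤ 1 / 8 := by
        rw [Real.rpow_neg hR0.le]
        have h6 : 0 < R ^ δ := by positivity
        rw [← div_eq_mul_inv, div_le_iff₀ h6]
        linarith
      linarith
    refine ⟨by linarith, by linarith, ?_, ?_⟩
    · have h5 := norm_add_le (ζ.1⁻¹ • ζ.2.1 - ctr (sR R) W.1) (ctr (sR R) W.1 - c)
      rw [sub_add_sub_cancel] at h5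
      have h6 := hSc W hW
      have h7 : 2 * sR R ≤ 1 / (400 * K) := by
        unfold sR
        have h8 : 0 < Real.sqrt R := Real.sqrt_pos.2 hR0
        rw [← div_eq_mul_inv, div_le_div_iff₀ h8 (by positivity)]
        linarith
      have h9 : 1 / (400 * K) + 1 / (400 * K) = 1 / (200 * K) := by
        field_simp
        norm_num
      linarith
    · refine h4.trans ?_
      have h5 : 0 < r⁻¹ := inv_pos.2 hr0
      rw [div_eq_mul_inv]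
      exact mul_le_mul_of_nonneg_right (by linarith) h5.le
  · have h1 := (hPLN 2 _ hTC).1
    have h2 : ENNReal.ofReal (∫ ζ, ‖∑ k ∈ I, G' k ζ‖ ^ 2) ≤
        ENNReal.ofReal (CB * R ^ (lo 2 * δ) * r * (a ^ 2 * S.card * R)) := by
      rw [← h1]
      have h3 : ∫⁻ z, ‖TF (fun ζ => ∑ k ∈ I, G' k ζ) z‖ₑ ^ 2 =
          ∫⁻ z, ‖(χ (r⁻¹ • (z - z₁)) : ℂ) * ∑ W ∈ S, Fp β ψ R δ G W z‖ₑ ^ 2 := by
        apply lintegral_congr
        intro z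
        rw [hTF z]
        rfl
      rw [h3]
      refine hBE.trans ?_
      have h4 : ∑ W ∈ S, al2 Na β R δ G W * ENNReal.ofReal (R ^ (((2 : ℕ) + 2 : ℝ) / 2)) ≤
          ENNReal.ofReal (S.card * (a ^ 2 * R ^ 2)) := by
        have h5 : ∀ W ∈ S, al2 Na β R δ G W * ENNReal.ofReal (R ^ (((2 : ℕ) + 2 : ℝ) / 2)) ≤
            ENNReal.ofReal (a ^ 2 * R ^ 2) := by
          intro W hW
          rw [ENNReal.ofReal_mul (by positivity)]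
          apply mul_le_mul' (al2_le (al2_ne_top hβ hPLN hR hκ hGTC hGs W) (hSW W hW).2.2)
          apply ENNReal.ofReal_le_ofReal
          rw [← Real.rpow_natCast R 2]
          apply le_of_eq
          congr 1
          push_cast
          norm_num
        refine (Finset.sum_le_sum h5).trans (le_of_eq ?_)
        rw [Finset.sum_const, nsmul_eq_mul, ENNReal.ofReal_mul (Nat.cast_nonneg S.card),
          ENNReal.ofReal_natCast]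
      refine (mul_le_mul_right h4 _).trans (le_of_eq ?_)
      rw [← ENNReal.ofReal_mul (by positivity)]
      congr 1
      field_simp
    exact (ENNReal.ofReal_le_ofReal_iff (by positivity)).1 h2

/-- the final algebra -/
theorem algM {n H CF KE Re q : ℝ} {T : Fin 4 → ℝ} (hH : 0 < H) (hCF : 0 ≤ CF) (hKE : 0 ≤ KE)
    (hRe : 0 ≤ Re) (hq : 1 ≤ q) (hT : ∀ i, 0 ≤ T i)
    (h : n ≤ CF * KE * Re * ∏ i, (q * T i / H ^ 2) ^ (1 / 3 : ℝ)) :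
    n * H ^ (8 / 3 : ℝ) ≤ CF * KE * (Re * q ^ 2) * ∏ i, (T i) ^ (1 / 3 : ℝ) := by
  have hq0 : 0 < q := by linarith
  have e1 : ∏ i, (q * T i / H ^ 2) ^ (1 / 3 : ℝ) =
      ((q / H ^ 2) ^ (1 / 3 : ℝ)) ^ 4 * ∏ i, (T i) ^ (1 / 3 : ℝ) := by
    have h1 : ∀ i, (q * T i / H ^ 2) ^ (1 / 3 : ℝ) =
        (q / H ^ 2) ^ (1 / 3 : ℝ) * (T i) ^ (1 / 3 : ℝ) := by
      intro i
      rw [← Real.mul_rpow (by positivity) (hT i)]
      congr 1
      ring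
    rw [Finset.prod_congr rfl fun i _ => h1 i, Finset.prod_mul_distrib, Finset.prod_const,
      Finset.card_univ, Fintype.card_fin]
  have e2 : ((q / H ^ 2) ^ (1 / 3 : ℝ)) ^ 4 * H ^ (8 / 3 : ℝ) = q ^ (4 / 3 : ℝ) := by
    rw [← Real.rpow_natCast, ← Real.rpow_mul (by positivity)]
    have h1 : H ^ (8 / 3 : ℝ) = (H ^ 2) ^ (4 / 3 : ℝ) := by
      rw [← Real.rpow_natCast H 2, ← Real.rpow_mul hH.le]
      congr 1
      norm_num
    have h2 : (1 / 3 : ℝ) * ((4 : ℕ) : ℝ) = 4 / 3 := by norm_num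
    rw [h1, h2, ← Real.mul_rpow (by positivity) (by positivity), div_mul_cancel₀ _ (by positivity)]
  have e3 : q ^ (4 / 3 : ℝ) ≤ q ^ 2 := by
    rw [← Real.rpow_natCast q 2]
    exact Real.rpow_le_rpow_of_exponent_le hq (by norm_num)
  have hprod : 0 ≤ ∏ i, (T i) ^ (1 / 3 : ℝ) :=
    Finset.prod_nonneg fun i _ => Real.rpow_nonneg (hT i) _
  rw [e1] at h
  calc n * H ^ (8 / 3 : ℝ) ≤ CF * KE * Re * (((q / H ^ 2) ^ (1 / 3 : ℝ)) ^ 4 *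
        ∏ i, (T i) ^ (1 / 3 : ℝ)) * H ^ (8 / 3 : ℝ) :=
        mul_le_mul_of_nonneg_right h (by positivity)
    _ = CF * KE * (Re * (((q / H ^ 2) ^ (1 / 3 : ℝ)) ^ 4 * H ^ (8 / 3 : ℝ))) *
        ∏ i, (T i) ^ (1 / 3 : ℝ) := by ring
    _ ≤ CF * KE * (Re * q ^ 2) * ∏ i, (T i) ^ (1 / 3 : ℝ) := by
        rw [e2]
        apply mul_le_mul_of_nonneg_right _ hprod
        apply mul_le_mul_of_nonneg_left _ (by positivity)
        exact mul_le_mul_of_nonneg_left e3 hRe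

open scoped Classical in
theorem pf_MRP (hFLP : Pool.Agent.H82.FP.T_FLP2) (hPKT : T_PKT) (hGBE : T_GBE) (_hAMU : T_AMU)
    (hLWX : T_LWX) (hPLN : T_PLN) : T_MRP := by
  intro ε δ Na β Ψ ψ hβ hΨ hε hδ hδ1 hNa
  obtain ⟨Ξ, χ, hχ⟩ := hLWX 2
  obtain ⟨CP, hCP, hP⟩ := hPKT 2 β Ψ Ξ ψ χ hβ hΨ hχ
  obtain ⟨CB, hCB, hB⟩ := hGBE 2 Na β Ψ Ξ ψ χ δ hβ hΨ hχ hδ (by linarith) (by omega)
  obtain ⟨CF, E₁, hCF, hE₁, hF⟩ := hFLP ε 2 hε (by norm_num)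
  obtain ⟨C₁, hC₁⟩ : ∃ C₁ : ℝ, C₁ = CP + CB := ⟨_, rfl⟩
  have hC₁1 : 1 ≤ C₁ := by linarith
  have hbig : 0 ≤ 256 * C₁ ^ 4 * CF * CB ^ 2 := by positivity
  refine ⟨256 * C₁ ^ 4 * CF * CB ^ 2 + 8 * C₁ + 800, E₁, by linarith, hE₁, ?_⟩
  intro κ R K H a c G S z₀ X hHG hRd hK hKR hH hc hInd hSc hX hXR hXH
  have hR : 1 ≤ R := (hHG 0).2.2.1
  have hR0 : 0 < R := by linarith
  have hK0 : 0 < K := by linarith
  have hsq : 0 < Real.sqrt R := Real.sqrt_pos.2 hR0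
  have hsq1 : 1 ≤ Real.sqrt R := Real.one_le_sqrt.2 hR
  have h8 : 8 * CP ≤ R ^ δ := by linarith
  have hKR8 : 800 * K ≤ Real.sqrt R := by
    refine le_trans (mul_le_mul_of_nonneg_right ?_ hK0.le) hKR
    linarith
  have hC₁R : C₁ ≤ Real.sqrt R := by
    have h1 : C₁ * 1 ≤ (256 * C₁ ^ 4 * CF * CB ^ 2 + 8 * C₁ + 800) * K :=
      mul_le_mul (by linarith) hK (by norm_num) (by positivity)
    linarith
  obtain ⟨r, hr⟩ : ∃ r : ℝ, r = R / C₁ := ⟨_, rfl⟩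
  have hr0 : 0 < r := by rw [hr]; positivity
  have hsqr : Real.sqrt R ≤ r := by
    rw [hr, le_div_iff₀ (by linarith)]
    calc Real.sqrt R * C₁ ≤ Real.sqrt R * Real.sqrt R := mul_le_mul_of_nonneg_left hC₁R hsq.le
      _ = R := Real.mul_self_sqrt hR0.le
  have hrP : r ≤ R / CP := by
    rw [hr]
    exact div_le_div_of_nonneg_left hR0.le (by linarith) (by linarith)
  have hrB : r ≤ R / CB := by
    rw [hr]
    exact div_le_div_of_nonneg_left hR0.le (by linarith) (by linarith)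
  have hrR : r ≤ R := by
    rw [hr]
    exact div_le_self hR0.le hC₁1
  have hr1 : 1 ≤ r := hsq1.trans hsqr
  have hq1 : 1 ≤ CB * R ^ (lo 2 * δ) := by
    have h1 : 1 ≤ R ^ (lo 2 * δ) := by
      apply Real.one_le_rpow hR
      unfold lo
      positivity
    calc (1 : ℝ) = 1 * 1 := by ring
      _ ≤ CB * R ^ (lo 2 * δ) := mul_le_mul hCB h1 (by norm_num) (by linarith)
  obtain ⟨Y, hYcard, hcov⟩ := cover r C₁ z₀ X hr0 hC₁1 (by
    intro z hz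
    have h1 : C₁ * r = R := by
      rw [hr]
      field_simp
    rw [h1]
    exact hXR z hz)
  have hT0 : ∀ i, 0 ≤ a i ^ 2 * ((S i).card : ℝ) * R := fun i => by positivity
  obtain ⟨B, hBdef⟩ : ∃ B : ℝ, B = CF * K ^ E₁ * R ^ ε *
      ∏ i, (CB * R ^ (lo 2 * δ) * (a i ^ 2 * (S i).card * R) / H ^ 2) ^ (1 / 3 : ℝ) := ⟨_, rfl⟩
  have hprod0 : 0 ≤ ∏ i, (CB * R ^ (lo 2 * δ) * (a i ^ 2 * (S i).card * R) / H ^ 2) ^ (1 / 3 : ℝ) := by
    apply Finset.prod_nonneg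
    intro i _
    apply Real.rpow_nonneg
    have := hT0 i
    positivity
  have hB0 : 0 ≤ B := by
    rw [hBdef]
    positivity
  have hpt : ∀ y ∈ Y, ∀ X' ⊆ X, (∀ z ∈ X', ‖z - y‖ ≤ r) → (X'.card : ℝ) ≤ B := by
    intro y _ X' hX' hX'r
    have hfam : ∀ i, ∃ G₁ : Z 2 → ℂ, TC G₁ ∧
        (∀ ζ, G₁ ζ ≠ 0 → 1 / 2 ≤ ζ.1 ∧ ζ.1 ≤ 6 ∧ ‖ζ.1⁻¹ • ζ.2.1 - c i‖ ≤ 1 / (200 * K) ∧
          |ζ.2.2 - ‖ζ.2.1‖ ^ 2 / ζ.1| ≤ 2 / r) ∧
        (∀ z, TF G₁ z = (χ (r⁻¹ • (z - y)) : ℂ) * FS β ψ R δ (G i) (S i) z) ∧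
        ∫ ζ, ‖G₁ ζ‖ ^ 2 ≤ CB * R ^ (lo 2 * δ) * r * (a i ^ 2 * (S i).card * R) := by
      intro i
      obtain ⟨hκ0, hκ, _, hGTC, hGs, ha, hSW⟩ := hHG i
      obtain ⟨G', h1, h2, h3, _⟩ := (hP κ R r δ (G i) (S i) y hκ0 hκ hδ (by linarith) hR
        (by linarith) hGTC hGs).2 hsqr hrP
      refine oneFam hβ hPLN (hHG i) hCB hK hr0 h8 hKR8 ⟨G', h1, h2, ?_⟩ ?_ (hSc i)
      · intro k z
        rw [h3]
      · exact hB κ R r (G i) (S i) y hκ0 hκ hR (by linarith) hsqr hrB hGTC hGs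
          (fun W hW => (hSW W hW).1)
    choose G₁ hG1 hG2 hG3 hG4 using hfam
    have hX's : Sep X' := fun z hz z' hz' hne => hX z (hX' hz) z' (hX' hz') hne
    have h5 := hF K r H c G₁ y X' hK hr1 hH hc hInd hG1 hG2 hX's hX'r (by
      intro z hz i
      rw [hG3, norm_mul]
      have h6 := hXH z (hX' hz) i
      have h7 : 1 ≤ χ (r⁻¹ • (z - y)) := by
        apply hχ.2.2.2.2
        rw [norm_smul, norm_inv, Real.norm_eq_abs, abs_of_pos hr0, ← div_eq_inv_mul,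
          div_le_iff₀ hr0]
        have := hX'r z hz
        push_cast
        linarith
      have h8 : ‖((χ (r⁻¹ • (z - y)) : ℝ) : ℂ)‖ = χ (r⁻¹ • (z - y)) := by
        rw [Complex.norm_real, Real.norm_eq_abs, abs_of_nonneg (by linarith)]
      rw [h8]
      calc H ≤ ‖FS β ψ R δ (G i) (S i) z‖ := h6
        _ = 1 * ‖FS β ψ R δ (G i) (S i) z‖ := (one_mul _).symm
        _ ≤ _ := mul_le_mul_of_nonneg_right h7 (norm_nonneg _))
    refine h5.trans ?_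
    rw [hBdef]
    have h6 : r ^ ε ≤ R ^ ε := Real.rpow_le_rpow hr0.le hrR hε.le
    have hint0 : ∀ i, 0 ≤ ∫ ζ, ‖G₁ i ζ‖ ^ 2 := fun i => integral_nonneg fun ζ => by positivity
    have h7 : ∏ i, (r⁻¹ * (∫ ζ, ‖G₁ i ζ‖ ^ 2) / H ^ 2) ^ (1 / 3 : ℝ) ≤
        ∏ i, (CB * R ^ (lo 2 * δ) * (a i ^ 2 * (S i).card * R) / H ^ 2) ^ (1 / 3 : ℝ) := by
      apply Finset.prod_le_prod
      · intro i _
        apply Real.rpow_nonneg
        have := hint0 i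
        positivity
      · intro i _
        apply Real.rpow_le_rpow _ _ (by norm_num)
        · have := hint0 i
          positivity
        · apply div_le_div_of_nonneg_right _ (by positivity)
          have h8 := hG4 i
          rw [← div_eq_inv_mul, div_le_iff₀ hr0]
          refine h8.trans (le_of_eq ?_)
          ring
    have h9 : 0 ≤ ∏ i, (r⁻¹ * (∫ ζ, ‖G₁ i ζ‖ ^ 2) / H ^ 2) ^ (1 / 3 : ℝ) := by
      apply Finset.prod_nonneg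
      intro i _
      apply Real.rpow_nonneg
      have := hint0 i
      positivity
    have h10 : 0 ≤ CF * K ^ E₁ := by positivity
    exact mul_le_mul (mul_le_mul_of_nonneg_left h6 h10) h7 h9 (by positivity)
  have hcard := card_cover X Y r B hB0 hcov hpt
  have h1 : (X.card : ℝ) ≤ (256 * C₁ ^ 4 * CF) * K ^ E₁ * R ^ ε *
      ∏ i, (CB * R ^ (lo 2 * δ) * (a i ^ 2 * (S i).card * R) / H ^ 2) ^ (1 / 3 : ℝ) := by
    refine hcard.trans ((mul_le_mul_of_nonneg_right hYcard hB0).trans (le_of_eq ?_))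
    rw [hBdef]
    ring
  have h2 := algM (T := fun i => a i ^ 2 * (S i).card * R) hH (by positivity) (by positivity)
    (by positivity) hq1 hT0 h1
  refine h2.trans ?_
  have hprod1 : 0 ≤ ∏ i, (a i ^ 2 * ((S i).card : ℝ) * R) ^ (1 / 3 : ℝ) :=
    Finset.prod_nonneg fun i _ => Real.rpow_nonneg (hT0 i) _
  apply mul_le_mul_of_nonneg_right _ hprod1
  have h3 : R ^ ε * (CB * R ^ (lo 2 * δ)) ^ 2 = CB ^ 2 * R ^ (ε + 2 * lo 2 * δ) := by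
    have h4 : R ^ (ε + 2 * lo 2 * δ) = R ^ ε * (R ^ (lo 2 * δ)) ^ 2 := by
      rw [← Real.rpow_natCast (R ^ (lo 2 * δ)) 2, ← Real.rpow_mul hR0.le, ← Real.rpow_add hR0]
      congr 1
      push_cast
      ring
    rw [h4]
    ring
  rw [h3]
  have h5 : 0 ≤ K ^ E₁ * R ^ (ε + 2 * lo 2 * δ) := by positivity
  calc 256 * C₁ ^ 4 * CF * K ^ E₁ * (CB ^ 2 * R ^ (ε + 2 * lo 2 * δ))
      = (256 * C₁ ^ 4 * CF * CB ^ 2) * (K ^ E₁ * R ^ (ε + 2 * lo 2 * δ)) := by ring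
    _ ≤ (256 * C₁ ^ 4 * CF * CB ^ 2 + 8 * C₁ + 800) * (K ^ E₁ * R ^ (ε + 2 * lo 2 * δ)) :=
        mul_le_mul_of_nonneg_right (by linarith) h5
    _ = _ := by ring

end Pool.Agent.H20.LSB
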